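import Pool.Agent.W2helper38.GG.Open
import Pool.Agent.W235.RM.Final

/-!
The Bombieri-Lang-Vojta conditions (i) on entire curves and (ii) on integral points of affine schemes
and the subvarieties which are images of open towers.
-/

set_option autoImplicit false
set_option linter.overlappingInstances false

namespace Pool.Agent.W2helper38.BV

open MvPolynomial FF Pool.Agent.Y199.NN Pool.Agent.Y199.NG IsDedekindDomain
open Pool.Agent.W602.GT (LogGeneralType)
open Pool.Agent.R882.HO (OpenTower)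
open Pool.Agent.W2helper38.GG (GmCovered)
open Pool.Agent.H159R3.Exp (FinitelyManyIntegral ExpCurvesIn Laur intPoints)
open Pool.Agent.W235.RM (EntireCurvesIn GmCurvesIn)
open scoped NumberField

/-- `X` is an open subset `G l ≠ 0` of an affine variety of dimension `n ≥ 1` (with generic point `x`
and function field `L`) which is dominated by the first variety of an open tower over an open variety
covered by images of the multiplicative group, where the tower has columns for `2 r`, `r` is the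
degree of the dominant rational map, and the boundary of the first variety is the preimage of the
boundary of `X`; and `X` is not of logarithmic general type. -/
def NonGeneralTowerImage {N : ℕ} (X : Set (Fin N → ℂ)) : Prop :=
  ∃ (n : ℕ) (κ : Type) (_ : Finite κ) (E : Type) (_ : Field E) (_ : Algebra ℂ E)
    (B : Place ℂ E → Prop) (L : Type) (_ : Field L) (_ : Algebra ℂ L) (_ : Algebra L E)
    (_ : IsScalarTower ℂ L E) (_ : FiniteDimensional L E) (G : κ → MvPolynomial (Fin N) ℂ)
    (x : Fin N → L),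
    1 ≤ n ∧ Algebra.trdeg ℂ E = (n : ℕ) ∧ IntermediateField.adjoin ℂ (Set.range x) = ⊤ ∧
    (∀ l, aeval x (G l) ≠ 0) ∧
    (∀ (P : Place ℂ L) (Q : Place ℂ E) (e : ℕ), Over Q P e → (Boundary G x P ↔ B Q)) ∧
    OpenTower n (fun E' _ _ BE => GmCovered n E' BE) E B (2 * Module.finrank L E) ∧
    ¬ LogGeneralType ℂ L n (Boundary G x) ∧ X = Pts G x

theorem NonGeneralTowerImage.intro {n N : ℕ} (hn : 1 ≤ n) {E : Type} [iE : Field E]
    [aE : Algebra ℂ E] (hE : Algebra.trdeg ℂ E = (n : ℕ)) {B : Place ℂ E → Prop}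
    {L : Type} [iL : Field L] [aL : Algebra ℂ L] [aLE : Algebra L E] [sLE : IsScalarTower ℂ L E]
    [fLE : FiniteDimensional L E] {κ : Type} [fκ : Finite κ] {G : κ → MvPolynomial (Fin N) ℂ}
    {x : Fin N → L} (hgen : IntermediateField.adjoin ℂ (Set.range x) = ⊤)
    (hG : ∀ l, aeval x (G l) ≠ 0)
    (hB : ∀ (P : Place ℂ L) (Q : Place ℂ E) (e : ℕ), Over Q P e → (Boundary G x P ↔ B Q))
    (ht : OpenTower n (fun E' _ _ BE => GmCovered n E' BE) E B (2 * Module.finrank L E))
    (hlg : ¬ LogGeneralType ℂ L n (Boundary G x)) : NonGeneralTowerImage (Pts G x) :=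
  ⟨n, κ, fκ, E, iE, aE, B, L, iL, aL, aLE, sLE, fLE, G, x, hn, hE, hgen, hG, hB, ht, hlg, rfl⟩

theorem torus_dense_of {N : ℕ} {X : Set (Fin N → ℂ)} (h : NonGeneralTowerImage X) :
    Zcl X (TorusPoints X) = X := by
  obtain ⟨n, κ, _, E, _, _, B, L, _, _, _, _, _, G, x, hn, hE, hgen, hG, hB, ht, hlg, rfl⟩ := h
  rcases Pool.Agent.W2helper38.GG.open_special hn hE hgen hG hB ht with h | h
  · exact absurd h hlg
  · exact h.2.2.2

section

variable {K : Type} [Field K] [NumberField K] (σ : K →+* ℂ) {N : ℕ} {ι ι' κ : Type}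

/-- the complex points of the affine scheme given by `F` -/
def CPts (F : ι → MvPolynomial (Fin N) (𝓞 K)) : Set (Fin N → ℂ) :=
  {P | ∀ i, eval₂ (σ.comp (algebraMap (𝓞 K) K)) P (F i) = 0}

omit [NumberField K] in
theorem sub_of_gm {F : ι → MvPolynomial (Fin N) (𝓞 K)} {G : κ → MvPolynomial (Fin N) (𝓞 K)}
    (h : GmCurvesIn σ F G) {X : Set (Fin N → ℂ)} (hX : X ⊆ CPts σ F)
    (hd : Zcl X (TorusPoints X) = X) : X ⊆ CPts σ G := by
  intro b hb l
  rw [← hd] at hb
  have h1 := hb.2 (map (σ.comp (algebraMap (𝓞 K) K)) (G l)) (by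
    rintro a ⟨v, hv, hvX, ⟨s, hs, hne⟩, t, ht, rfl⟩
    rw [eval_map]
    exact h v hv (fun i t ht => hX (hvX t ht) i) ⟨s, 1, hs, one_ne_zero, hne⟩ l t ht)
  rwa [eval_map] at h1

omit [NumberField K] in
theorem gm_of_exp {F : ι → MvPolynomial (Fin N) (𝓞 K)} {G : κ → MvPolynomial (Fin N) (𝓞 K)}
    (h : ExpCurvesIn σ F G) : GmCurvesIn σ F G := by
  by_contra hcon
  exact Pool.Agent.W235.RM.not_exp_of_not_gm σ F G hcon h

omit [NumberField K] in
theorem gm_of_entire {F : ι → MvPolynomial (Fin N) (𝓞 K)} {G : κ → MvPolynomial (Fin N) (𝓞 K)}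
    (h : EntireCurvesIn σ F G) : GmCurvesIn σ F G :=
  gm_of_exp σ (Pool.Agent.W235.RM.exp_of_entire σ F G h)

theorem gm_of_integral {F : ι → MvPolynomial (Fin N) (𝓞 K)} {G : κ → MvPolynomial (Fin N) (𝓞 K)}
    (h : FinitelyManyIntegral F G) : GmCurvesIn σ F G :=
  gm_of_exp σ (Pool.Agent.H159R3.Exp.main F G h σ)

/-- the complex point given by a point over a number field -/
theorem exists_place (L : Type) [Field L] [NumberField L] [Algebra K L] :
    ∃ τ : L →+* ℂ, ∀ (P : Fin N → L) (Q : MvPolynomial (Fin N) (𝓞 K)),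
      τ (eval₂ ((algebraMap K L).comp (algebraMap (𝓞 K) K)) P Q) =
        eval₂ (σ.comp (algebraMap (𝓞 K) K)) (fun j => τ (P j)) Q := by
  let _ : Algebra K ℂ := σ.toAlgebra
  have : Algebra.IsAlgebraic K L := by
    have := NumberField.to_finiteDimensional (K := L)
    have : IsScalarTower ℚ K L := by infer_instance
    have : FiniteDimensional K L := FiniteDimensional.right ℚ K L
    infer_instance
  let τ : L →ₐ[K] ℂ := IsAlgClosed.lift
  refine ⟨(τ : L →+* ℂ), fun P Q => ?_⟩
  have h1 : (τ : L →+* ℂ).comp ((algebraMap K L).comp (algebraMap (𝓞 K) K)) =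
      σ.comp (algebraMap (𝓞 K) K) := by
    ext a
    exact τ.commutes _
  have h2 := MvPolynomial.hom_eval₂ Q ((algebraMap K L).comp (algebraMap (𝓞 K) K))
    (τ : L →+* ℂ) P
  rw [h1] at h2
  exact h2

variable (F : ι → MvPolynomial (Fin N) (𝓞 K)) (F' : ι' → MvPolynomial (Fin N) (𝓞 K))
  (G : κ → MvPolynomial (Fin N) (𝓞 K))

omit [NumberField K] in
theorem diff_eval {f : ℂ → Fin N → ℂ} (hf : Differentiable ℂ f) (Q : MvPolynomial (Fin N) (𝓞 K)) :
    Differentiable ℂ fun z => eval₂ (σ.comp (algebraMap (𝓞 K) K)) (f z) Q := by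
  have hfj : ∀ j, Differentiable ℂ fun z => f z j := differentiable_pi.1 hf
  induction Q using MvPolynomial.induction_on with
  | C a => simp only [eval₂_C]; exact differentiable_const _
  | add p q hp hq => simp only [eval₂_add]; exact hp.add hq
  | mul_X p i hp => simp only [eval₂_mul, eval₂_X]; exact hp.mul (hfj i)

omit [NumberField K] in
theorem entire_iff (h : CPts σ F ⊆ CPts σ F' ∪ CPts σ G) :
    EntireCurvesIn σ F G ↔ EntireCurvesIn σ (Sum.elim F F') G := by
  constructor
  · intro h1 f hf hF hnc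
    exact h1 f hf (fun z i => hF z (Sum.inl i)) hnc
  · intro h1 f hf hF hnc z₀ l
    by_contra hne
    refine hne (h1 f hf ?_ hnc z₀ l)
    rintro z (i | i)
    · exact hF z i
    · -- the entire function `F' i (f z)` vanishes near `z₀`
      have hd := diff_eval σ hf (F' i)
      have hG := (diff_eval σ hf (G l)).continuous
      have hev : ∀ᶠ w in nhds z₀, eval₂ (σ.comp (algebraMap (𝓞 K) K)) (f w) (G l) ≠ 0 :=
        hG.continuousAt.eventually_ne hne
      have h0 : ∀ᶠ w in nhds z₀, eval₂ (σ.comp (algebraMap (𝓞 K) K)) (f w) (F' i) = 0 := by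
        filter_upwards [hev] with w hw
        rcases h (show f w ∈ CPts σ F from hF w) with h2 | h2
        · exact h2 i
        · exact absurd (h2 l) hw
      have h3 : (fun z => eval₂ (σ.comp (algebraMap (𝓞 K) K)) (f z) (F' i)) = fun _ => (0 : ℂ) := by
        have ha : AnalyticOnNhd ℂ (fun z => eval₂ (σ.comp (algebraMap (𝓞 K) K)) (f z) (F' i))
            Set.univ := fun z _ => hd.analyticAt z
        exact ha.eq_of_eventuallyEq (g := fun _ => (0 : ℂ)) (fun z _ => analyticAt_const) h0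
      exact congrFun h3 z

theorem integral_iff (h : CPts σ F ⊆ CPts σ F' ∪ CPts σ G) :
    FinitelyManyIntegral F G ↔ FinitelyManyIntegral (Sum.elim F F') G := by
  constructor
  · intro h1 L _ _ _ S hS
    refine (h1 L S hS).subset ?_
    rintro P ⟨⟨hP, hP2⟩, hP3⟩
    exact ⟨⟨hP, fun i => hP2 (Sum.inl i)⟩, hP3⟩
  · intro h1 L _ _ _ S hS
    refine (h1 L S hS).subset ?_
    rintro P ⟨⟨hP, hP2⟩, hP3⟩
    refine ⟨⟨hP, ?_⟩, hP3⟩
    obtain ⟨τ, hτ⟩ := exists_place (N := N) σ L
    rintro (i | i)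
    · exact hP2 i
    · have h2 : (fun j => τ (P j)) ∈ CPts σ F := fun i => by rw [← hτ, hP2 i, map_zero]
      rcases h h2 with h3 | h3
      · have h4 := h3 i
        rw [← hτ] at h4
        exact (map_eq_zero_iff τ τ.injective).1 h4
      · exfalso
        apply hP3
        refine ⟨hP, fun l => ?_⟩
        have h4 := h3 l
        rw [← hτ] at h4
        exact (map_eq_zero_iff τ τ.injective).1 h4

omit [NumberField K] in
theorem entire_of_finite (h : (CPts σ F).Finite) : EntireCurvesIn σ F G := by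
  intro f hf hF ⟨z, w, hzw⟩
  exfalso
  apply hzw
  have h1 : (Set.range f).Finite := h.subset (by
    rintro _ ⟨z, rfl⟩
    exact hF z)
  have h2 : (Set.range f).Subsingleton :=
    h1.countable.isTotallyDisconnected _ subset_rfl (isPreconnected_range hf.continuous)
  exact h2 ⟨z, rfl⟩ ⟨w, rfl⟩

theorem integral_of_finite (h : (CPts σ F).Finite) : FinitelyManyIntegral F G := by
  intro L _ _ _ S hS
  obtain ⟨τ, hτ⟩ := exists_place (N := N) σ L
  have h1 : Set.MapsTo (fun P : Fin N → L => fun j => τ (P j)) (intPoints F L S \ intPoints G L S)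
      (CPts σ F) := by
    rintro P ⟨⟨hP, hP2⟩, -⟩ i
    show eval₂ _ (fun j => τ (P j)) (F i) = 0
    rw [← hτ, hP2 i, map_zero]
  refine Set.Finite.of_injOn h1 ?_ h
  intro P _ Q _ hPQ
  funext j
  exact τ.injective (congrFun hPQ j)

omit [NumberField K] in
theorem cpts_sum : CPts σ (Sum.elim F F') = CPts σ F ∩ CPts σ F' := by
  ext P
  unfold CPts
  simp only [Set.mem_ofPred_eq, Set.mem_inter_iff, Sum.forall, Sum.elim_inl, Sum.elim_inr]

/-- **Subvarieties which are images of open towers.** -/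
theorem forced (h : EntireCurvesIn σ F G ∨ FinitelyManyIntegral F G) {X : Set (Fin N → ℂ)}
    (hX : NonGeneralTowerImage X) (hXF : X ⊆ CPts σ F) : X ⊆ CPts σ G := by
  refine sub_of_gm σ ?_ hXF (torus_dense_of hX)
  rcases h with h | h
  · exact gm_of_entire σ h
  · exact gm_of_integral σ h

/-- **Reduction to the rest.** -/
theorem reduction (h : ∀ P ∈ CPts σ F, P ∉ CPts σ F' →
      ∃ X, NonGeneralTowerImage X ∧ P ∈ X ∧ X ⊆ CPts σ F) :
    (EntireCurvesIn σ F G ↔
      CPts σ F ⊆ CPts σ F' ∪ CPts σ G ∧ EntireCurvesIn σ (Sum.elim F F') G) ∧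
    (FinitelyManyIntegral F G ↔
      CPts σ F ⊆ CPts σ F' ∪ CPts σ G ∧ FinitelyManyIntegral (Sum.elim F F') G) := by
  have h1 : EntireCurvesIn σ F G ∨ FinitelyManyIntegral F G →
      CPts σ F ⊆ CPts σ F' ∪ CPts σ G := by
    intro h2 P hP
    by_cases h3 : P ∈ CPts σ F'
    · exact Or.inl h3
    · obtain ⟨X, hX, hPX, hXF⟩ := h P hP h3
      exact Or.inr (forced σ F G h2 hX hXF hPX)
  refine ⟨⟨fun h2 => ?_, fun h2 => ?_⟩, ⟨fun h2 => ?_, fun h2 => ?_⟩⟩
  · have h3 := h1 (Or.inl h2)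
    exact ⟨h3, (entire_iff σ F F' G h3).1 h2⟩
  · exact (entire_iff σ F F' G h2.1).2 h2.2
  · have h3 := h1 (Or.inr h2)
    exact ⟨h3, (integral_iff σ F F' G h3).1 h2⟩
  · exact (integral_iff σ F F' G h2.1).2 h2.2

/-- **Reduction to the rest**, in the case that the rest is finite. -/
theorem reduction_finite (h : ∀ P ∈ CPts σ F, P ∉ CPts σ F' →
      ∃ X, NonGeneralTowerImage X ∧ P ∈ X ∧ X ⊆ CPts σ F) (hf : (CPts σ F ∩ CPts σ F').Finite) :
    (EntireCurvesIn σ F G ↔ FinitelyManyIntegral F G) ∧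
    (EntireCurvesIn σ F G ↔ CPts σ F ⊆ CPts σ F' ∪ CPts σ G) := by
  have h2 := reduction σ F F' G h
  have h4 : (CPts σ (Sum.elim F F')).Finite := by
    rw [cpts_sum]
    exact hf
  have h5 := entire_of_finite σ (Sum.elim F F') G h4
  have h6 := integral_of_finite σ (Sum.elim F F') G h4
  rw [h2.1, h2.2]
  exact ⟨⟨fun h => ⟨h.1, h6⟩, fun h => ⟨h.1, h5⟩⟩, ⟨fun h => h.1, fun h => ⟨h, h5⟩⟩⟩

end

end Pool.Agent.W2helper38.BV
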